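import Pool.Agent.H13.CO.MSR
import Pool.Agent.H14.CO.INK
import Pool.Agent.H19.CO.FIX
import Pool.Agent.H19.CO.FRL
import Pool.Agent.H21.CO.LAB
import Pool.Agent.H35.CO.TRU
import Pool.Agent.H39.CO.TYP
import Pool.Agent.H4.CO.SIB
import Pool.Agent.H45.CO.ABV
import Pool.Agent.H51.CO.ORS
import Pool.Agent.H56.CO.AMB
import Pool.Agent.H63.CO.RHB
import Pool.Agent.H77.CO.ORD
import Pool.Agent.H89.CO.REP
import Pool.Agent.H36.CQ.SIL
import Pool.Agent.H7.CQ.CTO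

/-!
# The dichotomy for linearly ordered structures: all rows
-/

set_option autoImplicit false

namespace Pool.Agent.H71.CO

/-- the dichotomy for linearly ordered structures -/
theorem pf_order : T_ORD := by
  have hLAB : T_LAB := Pool.Agent.H21.CO.pf_LAB
  have hORS : T_ORS := Pool.Agent.H51.CO.pf_ORS
  have hSIL : Pool.Agent.H71.CQ.T_SIL := Pool.Agent.H36.CQ.pf_SIL
  have hCTO : Pool.Agent.H71.CQ.T_CTO := Pool.Agent.H7.CQ.pf_CTO
  have hINK : T_INK := Pool.Agent.H14.CO.pf_INK hSIL hCTO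
  have hRIG : T_RIG := Pool.Agent.H14.CO.pf_RIG hSIL
  have hMSR : T_MSR := Pool.Agent.H13.CO.pf_MSR
  have hABV : T_ABV := Pool.Agent.H45.CO.pf_ABV
  have hFRL : T_FRL := Pool.Agent.H19.CO.pf_FRL hABV
  have hSIB : T_SIB := Pool.Agent.H4.CO.pf_SIB hABV hFRL hLAB
  have hRHB : T_RHB := Pool.Agent.H63.CO.pf_RHB
  have hREP : T_REP := Pool.Agent.H89.CO.pf_REP Pool.Agent.H39.CO.pf_TYP Pool.Agent.H35.CO.pf_TRU
    hSIB hORS Pool.Agent.H56.CO.pf_AMB hRHB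
  exact Pool.Agent.H77.CO.pf_ORD hINK hRIG hMSR hRHB Pool.Agent.H19.CO.pf_FIX hREP

end Pool.Agent.H71.CO
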