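import Pool.Agent.H71.CQ.SYN

/-!
# Two variables, counting quantifiers and a linear order: definitions
-/

set_option autoImplicit false

open Set

namespace Pool.Agent.H71.CO

open Pool.Agent.H71.CQ (Formula Holds Iso IsIso)

/-- truth of a formula in a structure given by a function of two arguments -/
def Tru {C : Type} [MeasurableSpace C] (x : ℕ → ℕ → C) (ψ : Formula C) (a b : ℕ) : Prop :=
  Holds (fun v : Fin 2 → ℕ => x (v 0) (v 1)) ψ ![a, b]

/-- linear orders -/
structure Lin {V : Type} (lt : V → V → Prop) : Prop where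
  irr : ∀ a, ¬ lt a a
  tra : ∀ a b c, lt a b → lt b c → lt a c
  tot : ∀ a b, a ≠ b → lt a b ∨ lt b a

/-- perfectly many types -/
def PerfK {C : Type} [MeasurableSpace C] (K : Set (ℕ → ℕ → C)) : Prop :=
  ∃ F : (ℕ → Bool) → ℕ → ℕ → C, Measurable F ∧ (∀ u, F u ∈ K) ∧
    ∀ u v, u ≠ v → ¬ Iso (F u) (F v)

/-- countably many types -/
def CtbK {C : Type} (K : Set (ℕ → ℕ → C)) : Prop :=
  ∃ D : Set (ℕ → ℕ → C), D.Countable ∧ ∀ x ∈ K, ∃ d ∈ D, Iso x d

/-- the linearly ordered models of a sentence -/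
def KO {C : Type} [MeasurableSpace C] (φ : Formula C) (P : Set C) : Set (ℕ → ℕ → C) :=
  {x | (∀ a b, Tru x φ a b) ∧ Lin fun a b => x a b ∈ P}

/-- stable labellings of the pairs of `ℕ` -/
structure Stb {L : Type} (s : ℕ → ℕ → L) : Prop where
  sw : ∀ a b a' b', s a b = s a' b' → s b a = s b' a'
  dg : ∀ a b a' b', s a b = s a' b' → s a a = s a' a'
  eq : ∀ a a' b', s a a = s a' b' → a' = b'
  cnt : ∀ a a', s a a = s a' a' → ∀ l, {b | s a b = l}.encard = {b | s a' b = l}.encard

/-- labellings with the same local structure -/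
structure Sib {L : Type} (s : ℕ → ℕ → L) {V : Type} (e : V → V → L) : Prop where
  rl : ∀ u v, ∃ a b, e u v = s a b
  sw : ∀ u v a b, e u v = s a b → e v u = s b a
  dg : ∀ u v a b, e u v = s a b → e u u = s a a
  eq : ∀ u v a, e u v = s a a → u = v
  cnt : ∀ u a, e u u = s a a → ∀ l, {v | e u v = l}.encard = {b | s a b = l}.encard

/-- the points of the colour of `a` -/
def Cls {L : Type} (s : ℕ → ℕ → L) (a : ℕ) : Set ℕ := {b | s b b = s a a}

/-- stable labellings of a linear order -/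
structure SO {L : Type} (s : ℕ → ℕ → L) (lt : ℕ → ℕ → Prop) : Prop where
  stb : Stb s
  lin : Lin lt
  cmp : ∀ a b a' b', s a b = s a' b' → (lt a b ↔ lt a' b')

/-- `t` is between `w` and `w'` -/
def Btw {V : Type} (lt : V → V → Prop) (w w' t : V) : Prop :=
  (lt w t ∧ lt t w') ∨ (lt w' t ∧ lt t w)

/-- the sizes of the classes of points at a finite distance, between `u` and `v` -/
def Rho {V : Type} (lt : V → V → Prop) (u v : V) : Set ℕ :=
  {n | ∃ w, lt u w ∧ lt w v ∧ {w' | {t | Btw lt w w' t}.Finite}.encard = ((n + 2 : ℕ) : ℕ∞)}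

/-- the points of the structure in which every point with an infinite colour class is replaced by
a copy of `I` -/
abbrev UV {L : Type} (s : ℕ → ℕ → L) (I : Type) : Type :=
  {a : ℕ // (Cls s a).Finite} ⊕ ({a : ℕ // ¬ (Cls s a).Finite} × I)

/-- the projection -/
def pr {L : Type} (s : ℕ → ℕ → L) {I : Type} : UV s I → ℕ
  | .inl a => a
  | .inr v => v.1

/-- the order -/
def Ul {L : Type} (s : ℕ → ℕ → L) (lt : ℕ → ℕ → Prop) {I : Type} (li : I → I → Prop) :
    UV s I → UV s I → Prop
  | .inl a, .inl b => lt a b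
  | .inl a, .inr w => lt a w.1
  | .inr v, .inl b => lt v.1 b
  | .inr v, .inr w => lt v.1 w.1 ∨ (v.1 = w.1 ∧ li v.2 w.2)

end Pool.Agent.H71.CO
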