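import Pool.Agent.H71.CO.Defs

/-!
# Two variables, counting quantifiers and a linear order: targets (board cqo_modules)
-/

set_option autoImplicit false

open Set

namespace Pool.Agent.H71.CO

open Pool.Agent.H71.CQ (Formula Holds Iso IsIso)

/-- INK. Borel invariants of tuples take countably many values. -/
def T_INK : Prop :=
  ∀ (C : Type) [MeasurableSpace C] [StandardBorelSpace C] (K : Set (ℕ → ℕ → C)),
    MeasurableSet K → ¬ PerfK K →
    ∀ (k : ℕ) (Y : Type) [MeasurableSpace Y] [StandardBorelSpace Y]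
      (ρ : (ℕ → ℕ → C) → (Fin k → ℕ) → Y), (∀ z, Measurable fun e => ρ e z) →
      (∀ (e e' : ℕ → ℕ → C) (g : ℕ ≃ ℕ), IsIso e e' g → ∀ z, ρ e' (g ∘ z) = ρ e z) →
      {y | ∃ e z, e ∈ K ∧ ρ e z = y}.Countable

/-- RIG. The dichotomy for rigid structures. -/
def T_RIG : Prop :=
  ∀ (C : Type) [MeasurableSpace C] [StandardBorelSpace C] (K : Set (ℕ → ℕ → C)),
    MeasurableSet K → (∀ e ∈ K, ∀ g : ℕ ≃ ℕ, IsIso e e g → g = Equiv.refl ℕ) →
      CtbK K ∨ PerfK K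

/-- MSR. The class is Borel. -/
def T_MSR : Prop :=
  ∀ (C : Type) [MeasurableSpace C] (φ : Formula C) (P : Set C), MeasurableSet P →
    MeasurableSet (KO φ P)

/-- TYP. The types of pairs are a stable labelling. -/
def T_TYP : Prop :=
  ∀ (C : Type) [MeasurableSpace C] [StandardBorelSpace C] (x : ℕ → ℕ → C),
    ∃ (L : Type) (_ : Countable L) (s : ℕ → ℕ → L), Stb s ∧
      (∀ a b a' b', s a b = s a' b' ↔ ∀ ψ : Formula C, Tru x ψ a b ↔ Tru x ψ a' b') ∧
      ∀ a b a' b', s a b = s a' b' → x a b = x a' b'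

/-- TRU. Structures with the same local structure satisfy the same formulas. -/
def T_TRU : Prop :=
  ∀ (C : Type) [MeasurableSpace C] (x : ℕ → ℕ → C) (L : Type) (s : ℕ → ℕ → L), Stb s →
    ∀ e : ℕ → ℕ → L, Sib s e →
    ∀ x' : ℕ → ℕ → C, (∀ u v a b, e u v = s a b → x' u v = x a b) →
    ∀ (ψ : Formula C) (u v a b : ℕ), e u v = s a b → (Tru x' ψ u v ↔ Tru x ψ a b)

/-- ABV. Infinitely many points above and below. -/
def T_ABV : Prop :=
  ∀ (L : Type) (s : ℕ → ℕ → L) (lt : ℕ → ℕ → Prop), SO s lt → ∀ a0 b0, lt a0 b0 →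
    ¬ (Cls s a0).Finite → ¬ (Cls s b0).Finite →
    (∀ a ∈ Cls s a0, {b | lt a b ∧ b ∈ Cls s b0}.Infinite) ∧
      ∀ b ∈ Cls s b0, {a | lt a b ∧ a ∈ Cls s a0}.Infinite

/-- FRL. A label which is open on both sides, if there are only finitely many labels. -/
def T_FRL : Prop :=
  ∀ (L : Type) (s : ℕ → ℕ → L) (lt : ℕ → ℕ → Prop), SO s lt → ∀ a0 b0, lt a0 b0 →
    ¬ (Cls s a0).Finite → ¬ (Cls s b0).Finite →
    {l | ∃ a b, lt a b ∧ a ∈ Cls s a0 ∧ b ∈ Cls s b0 ∧ s a b = l}.Finite →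
    ∃ a b, lt a b ∧ a ∈ Cls s a0 ∧ b ∈ Cls s b0 ∧ {c | s a c = s a b}.Infinite ∧
      {c | s b c = s b a}.Infinite

/-- LAB. The labelling theorem. -/
def T_LAB : Prop :=
  ∀ (U L : Type) [Countable U] [Countable L] [Nonempty L] (A : U → U → Set L) (rev : L → L)
    (cap : U → L → ℕ∞),
    (∀ u v l, u ≠ v → l ∈ A u v → rev l ∈ A v u ∧ rev (rev l) = l ∧ 1 ≤ cap u l) →
    (∀ u v, u ≠ v → (A u v).Infinite ∨ ∃ l ∈ A u v, cap u l = ⊤ ∧ cap v (rev l) = ⊤) →
    (∀ u v l, u ≠ v → l ∈ A u v → {w | w ≠ u ∧ l ∈ A u w}.Infinite) →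
    ∃ lab : U → U → L, (∀ u v, u ≠ v → lab u v ∈ A u v ∧ lab v u = rev (lab u v)) ∧
      ∀ u l, (∃ v, v ≠ u ∧ l ∈ A u v) → {v | v ≠ u ∧ lab u v = l}.encard = cap u l

/-- SIB. The points with infinite colour classes can be replaced by copies of any linear order. -/
def T_SIB : Prop :=
  ∀ (L : Type) [Countable L] (s : ℕ → ℕ → L) (lt : ℕ → ℕ → Prop), SO s lt →
    ∀ (I : Type) [Countable I] (li : I → I → Prop), Lin li → Nonempty I →
    ∃ E : UV s I → UV s I → L, Sib s E ∧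
      ∀ u v a b, E u v = s a b → (Ul s lt li u v ↔ lt a b)

/-- ORS. Linear orders which code sets of natural numbers. -/
def T_ORS : Prop :=
  ∀ S : Set ℕ, ∃ (I : Type) (_ : Countable I) (li : I → I → Prop), Lin li ∧
    (∀ k, {k' | li k k'}.Infinite ∧ {k' | li k' k}.Infinite) ∧ ∃ i j, Rho li i j = S

/-- AMB. The set coded in a copy of `I`. -/
def T_AMB : Prop :=
  ∀ (L : Type) (s : ℕ → ℕ → L) (lt : ℕ → ℕ → Prop), SO s lt →
    ∀ (I : Type) (li : I → I → Prop), Lin li →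
    (∀ k, {k' | li k k'}.Infinite ∧ {k' | li k' k}.Infinite) →
    Lin (Ul s lt li) ∧ ∀ (a : {a : ℕ // ¬ (Cls s a).Finite}) (i j : I),
      Rho (Ul s lt li) (Sum.inr (a, i)) (Sum.inr (a, j)) = Rho li i j

open Classical in
/-- RHB. The coded set is a Borel invariant. -/
def T_RHB : Prop :=
  ∀ (C : Type) [MeasurableSpace C] (P : Set C), MeasurableSet P →
    (∀ u v : ℕ, Measurable fun (x : ℕ → ℕ → C) (n : ℕ) =>
      decide (n ∈ Rho (fun a b => x a b ∈ P) u v)) ∧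
    ∀ (V V' : Type) (lt : V → V → Prop) (lt' : V' → V' → Prop) (g : V ≃ V'),
      (∀ u v, lt' (g u) (g v) ↔ lt u v) → ∀ u v, Rho lt' (g u) (g v) = Rho lt u v

/-- FIX. Linearly ordered structures with finite colour classes are rigid. -/
def T_FIX : Prop :=
  ∀ (C : Type) [MeasurableSpace C] (P : Set C) (x : ℕ → ℕ → C), (Lin fun a b => x a b ∈ P) →
    (∀ a, {b | ∀ ψ : Formula C, Tru x ψ b b ↔ Tru x ψ a a}.Finite) →
    ∀ g : ℕ ≃ ℕ, IsIso x x g → g = Equiv.refl ℕ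

/-- REP. An infinite colour class gives all sets. -/
def T_REP : Prop :=
  ∀ (C : Type) [MeasurableSpace C] [StandardBorelSpace C] (φ : Formula C) (P : Set C),
    ∀ x ∈ KO φ P, ∀ a, ¬ {b | ∀ ψ : Formula C, Tru x ψ b b ↔ Tru x ψ a a}.Finite →
    ∀ S : Set ℕ, ∃ x' ∈ KO φ P, ∃ u v : ℕ, Rho (fun a b => x' a b ∈ P) u v = S

/-- ORD. The dichotomy for linearly ordered structures. -/
def T_ORD : Prop :=
  ∀ (C : Type) [MeasurableSpace C] [StandardBorelSpace C] (φ : Formula C) (P : Set C),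
    MeasurableSet P → CtbK (KO φ P) ∨ PerfK (KO φ P)

end Pool.Agent.H71.CO
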